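import Pool.Agent.Y998.LP.Defs

/-!
# LP-ENT: entropy increments of a convolution semigroup
-/

set_option autoImplicit false

namespace Pool.Agent.Y415.LP

open Finset Filter Topology Pool.Agent.Y998.LP

section
variable {G : Type} [Group G] [Fintype G] {μ : ℝ → G → ℝ}

/-- reindexing by a left translation -/
theorem sum_tr (h : G) (F : G → ℝ) : ∑ g, F (h⁻¹ * g) = ∑ g, F g :=
  Equiv.sum_comp (Equiv.mulLeft h⁻¹) F

theorem comp_eq (hpos : ∀ t, 0 < t → ∀ g, 0 < μ t g) (hsum : ∀ t, 0 ≤ t → ∑ g, μ t g = 1)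
    (hsg : ∀ s t, 0 ≤ s → 0 ≤ t → ∀ g, μ (s + t) g = ∑ k, μ s k * μ t (k⁻¹ * g))
    {s t : ℝ} (hs : 0 < s) (ht : 0 < t) :
    ent (μ (s + t)) - ent (μ t) =
      ∑ h, μ s h * ∑ g, μ t (h⁻¹ * g) * Real.log (μ t (h⁻¹ * g) / μ (s + t) g) := by
  have h1 : ∀ h, ∑ g, μ t (h⁻¹ * g) * Real.log (μ t (h⁻¹ * g) / μ (s + t) g) =
      ∑ g, μ t g * Real.log (μ t g) - ∑ g, μ t (h⁻¹ * g) * Real.log (μ (s + t) g) := by
    intro h
    rw [← sum_tr h (fun g => μ t g * Real.log (μ t g)), ← Finset.sum_sub_distrib]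
    refine Finset.sum_congr rfl fun g _ => ?_
    rw [Real.log_div (hpos t ht _).ne' (hpos (s + t) (by linarith) _).ne']
    ring
  have h2 : ∑ h, μ s h * ∑ g, μ t (h⁻¹ * g) * Real.log (μ (s + t) g) =
      ∑ g, μ (s + t) g * Real.log (μ (s + t) g) := by
    simp only [Finset.mul_sum]
    rw [Finset.sum_comm]
    refine Finset.sum_congr rfl fun g _ => ?_
    conv_rhs => rw [hsg s t hs.le ht.le g]
    rw [Finset.sum_mul]
    refine Finset.sum_congr rfl fun h _ => ?_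
    rw [← hsg s t hs.le ht.le g]
    ring
  calc ent (μ (s + t)) - ent (μ t)
      = (∑ h, μ s h) * (∑ g, μ t g * Real.log (μ t g)) -
          ∑ g, μ (s + t) g * Real.log (μ (s + t) g) := by
        rw [hsum s hs.le]; unfold ent; ring
    _ = ∑ h, μ s h * ∑ g, μ t (h⁻¹ * g) * Real.log (μ t (h⁻¹ * g) / μ (s + t) g) := by
        rw [← h2, Finset.sum_mul, ← Finset.sum_sub_distrib]
        refine Finset.sum_congr rfl fun h _ => ?_
        rw [h1 h]; ring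

theorem mono_inc (hDPI : S_DPI)
    (hpos : ∀ t, 0 < t → ∀ g, 0 < μ t g) (hsum : ∀ t, 0 ≤ t → ∑ g, μ t g = 1)
    (hsg : ∀ s t, 0 ≤ s → 0 ≤ t → ∀ g, μ (s + t) g = ∑ k, μ s k * μ t (k⁻¹ * g))
    {s t r : ℝ} (hs : 0 < s) (ht : 0 < t) (hr : 0 ≤ r) :
    ent (μ (s + (t + r))) - ent (μ (t + r)) ≤ ent (μ (s + t)) - ent (μ t) := by
  rcases hr.eq_or_lt with h0 | hr
  · rw [← h0, add_zero]
  rw [comp_eq hpos hsum hsg hs (by linarith : 0 < t + r), comp_eq hpos hsum hsg hs ht]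
  refine Finset.sum_le_sum fun h _ => mul_le_mul_of_nonneg_left ?_ (hpos s hs h).le
  have key := hDPI G (fun g => μ t (h⁻¹ * g)) (μ (s + t)) (μ r) (fun g => hpos t ht _)
    (fun g => hpos _ (by linarith) _) (fun g => (hpos r hr g).le) (hsum r hr.le)
  have e1 : ∀ g, ∑ k, μ t (h⁻¹ * k) * μ r (k⁻¹ * g) = μ (t + r) (h⁻¹ * g) := by
    intro g
    rw [hsg t r ht.le hr.le, ← sum_tr h (fun k => μ t k * μ r (k⁻¹ * (h⁻¹ * g)))]
    refine Finset.sum_congr rfl fun k _ => ?_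
    congr 2
    group
  have e2 : ∀ g, ∑ k, μ (s + t) k * μ r (k⁻¹ * g) = μ (s + (t + r)) g := by
    intro g
    rw [← hsg (s + t) r (by linarith) hr.le, add_assoc]
  simp only [e1, e2] at key
  exact key

theorem step (hPIN : S_PIN) (hDPI : S_DPI)
    (hpos : ∀ t, 0 < t → ∀ g, 0 < μ t g) (hsum : ∀ t, 0 ≤ t → ∑ g, μ t g = 1)
    (hsg : ∀ s t, 0 ≤ s → 0 ≤ t → ∀ g, μ (s + t) g = ∑ k, μ s k * μ t (k⁻¹ * g))
    {t : ℝ} (ht : 0 < t) (m : ℕ) (s : ℝ) (hsm : s = t / 2 / ((m : ℝ) + 1)) :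
    t / 2 * ∑ h, μ s h / s * ((∑ g, |μ t (h⁻¹ * g) - μ (s + t) g|) ^ 2 / 2) ≤
      ent (μ t) - ent (μ (t / 2)) := by
  have hm : (0 : ℝ) < (m : ℝ) + 1 := by positivity
  have hs : 0 < s := by rw [hsm]; positivity
  have hms : ((m : ℝ) + 1) * s = t / 2 := by rw [hsm]; field_simp
  -- telescoping
  have htel : ent (μ t) - ent (μ (t / 2)) =
      ∑ i ∈ range (m + 1), (ent (μ (t / 2 + ((i + 1 : ℕ) : ℝ) * s)) -
        ent (μ (t / 2 + (i : ℝ) * s))) := by
    rw [Finset.sum_range_sub (fun i : ℕ => ent (μ (t / 2 + (i : ℝ) * s)))]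
    have e1 : t / 2 + ((m + 1 : ℕ) : ℝ) * s = t := by push_cast; linarith
    have e2 : t / 2 + ((0 : ℕ) : ℝ) * s = t / 2 := by push_cast; ring
    rw [e1, e2]
  have hge : ∀ i ∈ range (m + 1), ent (μ (s + t)) - ent (μ t) ≤
      ent (μ (t / 2 + ((i + 1 : ℕ) : ℝ) * s)) - ent (μ (t / 2 + (i : ℝ) * s)) := by
    intro i hi
    have hi' : (i : ℝ) ≤ m := by
      have := Finset.mem_range.mp hi
      exact_mod_cast Nat.lt_succ_iff.mp this
    have hr : 0 ≤ t - (t / 2 + (i : ℝ) * s) := by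
      have : (i : ℝ) * s ≤ ((m : ℝ) + 1) * s := mul_le_mul_of_nonneg_right (by linarith) hs.le
      linarith
    have hpt : 0 < t / 2 + (i : ℝ) * s := by positivity
    have := mono_inc hDPI hpos hsum hsg hs hpt hr
    have e1 : t / 2 + (i : ℝ) * s + (t - (t / 2 + (i : ℝ) * s)) = t := by ring
    have e2 : t / 2 + ((i + 1 : ℕ) : ℝ) * s = s + (t / 2 + (i : ℝ) * s) := by push_cast; ring
    rw [e1] at this
    rw [e2]
    exact this
  have h3 : ((m : ℝ) + 1) * (ent (μ (s + t)) - ent (μ t)) ≤ ent (μ t) - ent (μ (t / 2)) := by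
    rw [htel]
    have := Finset.card_nsmul_le_sum _ _ _ hge
    rw [Finset.card_range, nsmul_eq_mul] at this
    push_cast at this ⊢
    exact this
  have h4 : ∑ h, μ s h * ((∑ g, |μ t (h⁻¹ * g) - μ (s + t) g|) ^ 2 / 2) ≤
      ent (μ (s + t)) - ent (μ t) := by
    rw [comp_eq hpos hsum hsg hs ht]
    refine Finset.sum_le_sum fun h _ => mul_le_mul_of_nonneg_left ?_ (hpos s hs h).le
    exact hPIN G (fun g => μ t (h⁻¹ * g)) (μ (s + t)) (fun g => hpos t ht _)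
      (fun g => hpos _ (by linarith) _) ((sum_tr h (μ t)).trans (hsum t ht.le))
      (hsum _ (by linarith))
  calc t / 2 * ∑ h, μ s h / s * ((∑ g, |μ t (h⁻¹ * g) - μ (s + t) g|) ^ 2 / 2)
      = ((m : ℝ) + 1) * ∑ h, μ s h * ((∑ g, |μ t (h⁻¹ * g) - μ (s + t) g|) ^ 2 / 2) := by
        rw [← hms, Finset.mul_sum, Finset.mul_sum]
        refine Finset.sum_congr rfl fun h _ => ?_
        field_simp
    _ ≤ ((m : ℝ) + 1) * (ent (μ (s + t)) - ent (μ t)) := mul_le_mul_of_nonneg_left h4 hm.le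
    _ ≤ _ := h3

end

theorem t_ENT (hPIN : S_PIN) (hDPI : S_DPI) : S_ENT := by
  classical
  intro G _ _ μ c hpos hsum hsg hcont hlim t ht
  -- the sequence of step lengths
  have hs0 : Tendsto (fun m : ℕ => t / 2 / ((m : ℝ) + 1)) atTop (𝓝 0) := by
    have h1 : Tendsto (fun m : ℕ => (m : ℝ) + 1) atTop atTop :=
      tendsto_atTop_add_const_right _ _ tendsto_natCast_atTop_atTop
    exact h1.const_div_atTop _
  have hs1 : Tendsto (fun m : ℕ => t / 2 / ((m : ℝ) + 1)) atTop (𝓝[>] 0) := by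
    rw [tendsto_nhdsWithin_iff]
    refine ⟨hs0, Eventually.of_forall fun m => ?_⟩
    have : (0 : ℝ) < (m : ℝ) + 1 := by positivity
    exact div_pos (by linarith) this
  have hterm : ∀ h ∈ univ.erase (1 : G), Tendsto (fun m : ℕ =>
      μ (t / 2 / ((m : ℝ) + 1)) h / (t / 2 / ((m : ℝ) + 1)) *
        ((∑ g, |μ t (h⁻¹ * g) - μ (t / 2 / ((m : ℝ) + 1) + t) g|) ^ 2 / 2)) atTop
      (𝓝 (c h * ((∑ g, |μ t (h⁻¹ * g) - μ t g|) ^ 2 / 2))) := by
    intro h hh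
    have hh1 : h ≠ 1 := (Finset.mem_erase.mp hh).1
    refine ((hlim h hh1).comp hs1).mul ?_
    refine Tendsto.div_const (Tendsto.pow ?_ 2) 2
    refine tendsto_finsetSum _ fun g _ => ?_
    refine (tendsto_const_nhds.sub ?_).abs
    have h2 := (hcont g).tendsto t
    have h3 : Tendsto (fun m : ℕ => t / 2 / ((m : ℝ) + 1) + t) atTop (𝓝 t) := by
      simpa using hs0.add_const t
    exact h2.comp h3
  have hsumt := (tendsto_finsetSum _ hterm).const_mul (t / 2)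
  have hclaim : t / 2 * ∑ h ∈ univ.erase (1 : G),
      c h * ((∑ g, |μ t (h⁻¹ * g) - μ t g|) ^ 2 / 2) =
      t / 2 * ∑ h, c h * ((∑ g, |μ t (h⁻¹ * g) - μ t g|) ^ 2 / 2) := by
    congr 1
    rw [← Finset.add_sum_erase univ _ (Finset.mem_univ (1 : G))]
    simp
  rw [← hclaim]
  refine le_of_tendsto' hsumt fun m => ?_
  refine le_trans ?_ (step hPIN hDPI hpos hsum hsg ht m _ rfl)
  have hs : 0 < t / 2 / ((m : ℝ) + 1) := by positivity
  refine mul_le_mul_of_nonneg_left ?_ (by linarith)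
  refine Finset.sum_le_sum_of_subset_of_nonneg (Finset.erase_subset _ _) fun h _ _ => ?_
  exact mul_nonneg (div_nonneg (hpos _ hs h).le hs.le) (by positivity)

end Pool.Agent.Y415.LP
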