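import Pool.Agent.Y998.LP.Defs

/-!
# LP-UP: entropy upper bound by Gibbs' inequality and the second moment
-/

set_option autoImplicit false

namespace Pool.Agent.Y415.LP

open Finset Equiv Filter Topology Pool.Agent.Y998.LP Pool.Agent.Y998.ST

section gibbs
variable {V : Type} [Fintype V] [DecidableEq V]

theorem sum_perm_le (r : V → V → ℝ) (hr : ∀ v y, 0 < r v y) (hr1 : ∀ v, ∑ y, r v y = 1) :
    ∑ g : Perm V, ∏ v, r v (g v) ≤ 1 := by
  have h1 : ∑ f : V → V, ∏ v, r v (f v) = 1 := by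
    have h2 := Finset.prod_univ_sum (fun _ : V => (univ : Finset V)) (fun v y => r v y)
    rw [Fintype.piFinset_univ] at h2
    rw [← h2]
    simp only [hr1, Finset.prod_const_one]
  rw [← h1]
  have hinj : Function.Injective (fun g : Perm V => (g : V → V)) := fun a b h =>
    Equiv.ext fun x => congrFun h x
  calc ∑ g : Perm V, ∏ v, r v (g v)
      = ∑ f ∈ univ.image (fun g : Perm V => (g : V → V)), ∏ v, r v (f v) := by
        rw [Finset.sum_image fun a _ b _ h => hinj h]
    _ ≤ ∑ f : V → V, ∏ v, r v (f v) :=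
        Finset.sum_le_univ_sum_of_nonneg fun f => Finset.prod_nonneg fun v _ => (hr _ _).le

/-- Gibbs' inequality. -/
theorem gibbs (p : Perm V → ℝ) (hp : ∀ g, 0 ≤ p g) (hp1 : ∑ g, p g = 1)
    (r : V → V → ℝ) (hr : ∀ v y, 0 < r v y) (hr1 : ∀ v, ∑ y, r v y = 1) :
    ent p ≤ ∑ v, ∑ g, p g * (-Real.log (r v (g v))) := by
  have hq : ∀ g : Perm V, 0 < ∏ v, r v (g v) := fun g => Finset.prod_pos fun v _ => hr _ _
  have h1 : ∀ g : Perm V, -(p g * Real.log (p g)) ≤
      ∑ v, p g * (-Real.log (r v (g v))) + ((∏ v, r v (g v)) - p g) := by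
    intro g
    have hlog : ∑ v, p g * (-Real.log (r v (g v))) = -(p g * Real.log (∏ v, r v (g v))) := by
      rw [Real.log_prod fun v _ => (hr v (g v)).ne', Finset.mul_sum, ← Finset.sum_neg_distrib]
      exact Finset.sum_congr rfl fun v _ => by ring
    rw [hlog]
    rcases (hp g).eq_or_lt with h0 | h0
    · rw [← h0]
      simp only [zero_mul, neg_zero, zero_add, sub_zero]
      exact (hq g).le
    · have h2 := Real.log_le_sub_one_of_pos (div_pos (hq g) h0)
      rw [Real.log_div (hq g).ne' h0.ne'] at h2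
      have h3 := mul_le_mul_of_nonneg_left h2 h0.le
      have h4 : p g * ((∏ v, r v (g v)) / p g - 1) = (∏ v, r v (g v)) - p g := by
        field_simp
      rw [h4] at h3
      linarith
  calc ent p = ∑ g, -(p g * Real.log (p g)) := by
        unfold ent; rw [Finset.sum_neg_distrib]
    _ ≤ ∑ g : Perm V, (∑ v, p g * (-Real.log (r v (g v))) + ((∏ v, r v (g v)) - p g)) :=
        Finset.sum_le_sum fun g _ => h1 g
    _ = ∑ v, ∑ g, p g * (-Real.log (r v (g v))) + ((∑ g : Perm V, ∏ v, r v (g v)) - 1) := by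
        rw [Finset.sum_add_distrib, Finset.sum_sub_distrib, hp1, Finset.sum_comm]
    _ ≤ _ := by linarith [sum_perm_le r hr hr1]

end gibbs

section line
variable {L : ℕ} [NeZero L]

theorem sq_vma (u : ZMod L) :
    ((u + 1).valMinAbs : ℝ) ^ 2 + ((u - 1).valMinAbs : ℝ) ^ 2 - 2 * (u.valMinAbs : ℝ) ^ 2 ≤ 2 := by
  have key : ∀ (x : ZMod L) (k : ℤ), x = (k : ZMod L) → x.valMinAbs ^ 2 ≤ k ^ 2 := by
    intro x k hk
    have h1 : ((x.valMinAbs : ℤ) : ZMod L) = (k : ZMod L) := by rw [ZMod.coe_valMinAbs, hk]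
    have := ZMod.natAbs_min_of_le_div_two L x.valMinAbs k h1 (ZMod.natAbs_valMinAbs_le x)
    exact Int.natAbs_le_iff_sq_le.mp this
  have h1 := key (u + 1) (u.valMinAbs + 1) (by simp)
  have h2 := key (u - 1) (u.valMinAbs - 1) (by simp)
  have h1' : ((u + 1).valMinAbs : ℝ) ^ 2 ≤ ((u.valMinAbs : ℝ) + 1) ^ 2 := by exact_mod_cast h1
  have h2' : ((u - 1).valMinAbs : ℝ) ^ 2 ≤ ((u.valMinAbs : ℝ) - 1) ^ 2 := by exact_mod_cast h2
  nlinarith

/-- the normalising constant -/
noncomputable def ZZ (L : ℕ) [NeZero L] (β : ℝ) : ℝ :=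
  ∑ z : ZMod L, Real.exp (-(β * |(z.valMinAbs : ℝ)|))

theorem ZZ_pos (β : ℝ) : 0 < ZZ L β := by
  unfold ZZ
  exact Finset.sum_pos (fun z _ => Real.exp_pos _) ⟨0, Finset.mem_univ _⟩

theorem ZZ_le {β : ℝ} (hβ0 : 0 < β) : ZZ L β ≤ 1 + 2 * (1 / β) := by
  unfold ZZ
  have h5 : ∑ k : ZMod L, Real.exp (-(β * |(k.valMinAbs : ℝ)|)) ≤
      ∑ m ∈ Finset.Icc (-(L : ℤ)) L, Real.exp (-(β * |(m : ℝ)|)) := by
    have h6 : ∑ k : ZMod L, Real.exp (-(β * |(k.valMinAbs : ℝ)|)) =
        ∑ m ∈ Finset.univ.image (fun k : ZMod L => k.valMinAbs),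
          Real.exp (-(β * |(m : ℝ)|)) := by
      rw [Finset.sum_image]
      intro a _ b _ hab
      exact ZMod.injective_valMinAbs hab
    rw [h6]
    refine Finset.sum_le_sum_of_subset_of_nonneg ?_ fun m _ _ => (Real.exp_pos _).le
    intro m hm
    obtain ⟨k, _, rfl⟩ := Finset.mem_image.1 hm
    have h7 := ZMod.valMinAbs_mem_Ioc k
    rw [Finset.mem_Icc]
    have h8 := h7.1
    have h9 := h7.2
    constructor <;> omega
  refine h5.trans ?_
  have h6 : Finset.Icc (-(L : ℤ)) L = insert 0 ((Finset.range L).image (fun m : ℕ => (m : ℤ) + 1) ∪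
      (Finset.range L).image (fun m : ℕ => -((m : ℤ) + 1))) := by
    ext m
    simp only [Finset.mem_Icc, Finset.mem_insert, Finset.mem_union, Finset.mem_image,
      Finset.mem_range]
    constructor
    · intro h
      rcases lt_trichotomy m 0 with h0 | h0 | h0
      · right; right
        exact ⟨(-m - 1).toNat, by omega, by omega⟩
      · left; exact h0
      · right; left
        exact ⟨(m - 1).toNat, by omega, by omega⟩
    · rintro (h | ⟨a, ha, rfl⟩ | ⟨a, ha, rfl⟩) <;> omega
  have hpos : ∀ m : ℤ, 0 ≤ Real.exp (-(β * |(m : ℝ)|)) := fun m => (Real.exp_pos _).le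
  rw [h6]
  have h7 : ∑ m ∈ insert (0 : ℤ) ((Finset.range L).image (fun m : ℕ => (m : ℤ) + 1) ∪
      (Finset.range L).image (fun m : ℕ => -((m : ℤ) + 1))), Real.exp (-(β * |(m : ℝ)|)) ≤
      Real.exp (-(β * |((0 : ℤ) : ℝ)|)) +
      (∑ m ∈ (Finset.range L).image (fun m : ℕ => (m : ℤ) + 1),
        Real.exp (-(β * |(m : ℝ)|)) +
      ∑ m ∈ (Finset.range L).image (fun m : ℕ => -((m : ℤ) + 1)),
        Real.exp (-(β * |(m : ℝ)|))) := by
    rw [Finset.sum_insert (by
      simp only [Finset.mem_union, Finset.mem_image, Finset.mem_range]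
      rintro (⟨a, _, h⟩ | ⟨a, _, h⟩) <;> omega)]
    refine add_le_add le_rfl ?_
    rw [← Finset.sum_union_inter]
    exact le_add_of_nonneg_right (Finset.sum_nonneg fun m _ => hpos m)
  refine h7.trans ?_
  have hterm : ∀ m : ℕ, Real.exp (-(β * |((m : ℝ) + 1)|)) = Real.exp (-β) ^ (m + 1) := by
    intro m
    rw [abs_of_pos (by positivity), ← Real.exp_nat_mul]
    congr 1
    push_cast
    ring
  have h8 : ∑ m ∈ (Finset.range L).image (fun m : ℕ => (m : ℤ) + 1),
        Real.exp (-(β * |(m : ℝ)|)) ≤ 1 / β := by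
    rw [Finset.sum_image (by intro a _ b _ hab; simp only at hab; omega)]
    refine le_trans (le_of_eq ?_) (geom_le hβ0 L)
    refine Finset.sum_congr rfl fun m _ => ?_
    rw [← hterm m]
    push_cast
    rfl
  have h9 : ∑ m ∈ (Finset.range L).image (fun m : ℕ => -((m : ℤ) + 1)),
        Real.exp (-(β * |(m : ℝ)|)) ≤ 1 / β := by
    rw [Finset.sum_image (by intro a _ b _ hab; simp only at hab; omega)]
    refine le_trans (le_of_eq ?_) (geom_le hβ0 L)
    refine Finset.sum_congr rfl fun m _ => ?_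
    rw [← hterm m]
    push_cast
    rw [abs_neg]
  have h10 : Real.exp (-(β * |((0 : ℤ) : ℝ)|)) = 1 := by simp
  rw [h10]
  linarith

end line

section torus
variable {d L : ℕ} [NeZero L]

theorem exp_deriv' (J : (Fin d → ZMod L) → (Fin d → ZMod L) → ℝ) (s : ℝ)
    (f : (Fin d → ZMod L) → ℝ) (v : Fin d → ZMod L) (hs : ∀ x y, J x y = J y x)
    (h0 : ∀ x, J x x = 0) :
    HasDerivAt (fun u => stirExp J u (fun g => f (g v)))
      (stirExp J s (fun g => ∑ x, f x * GG J x (g v))) s := by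
  refine (exp_deriv J s (fun g => f (g v))).congr_deriv ?_
  have h1 : (fun g : Perm (Fin d → ZMod L) => ∑ x, f x * GG J x (g v)) =
      fun g => ∑ c, ∑ e, J c e / 2 * (f (swap c e (g v)) - f (g v)) := by
    funext g
    rw [gen_one hs h0]
  rw [h1, ← exp_sum]
  refine Finset.sum_congr rfl fun c _ => ?_
  rw [← exp_sum]
  refine Finset.sum_congr rfl fun e _ => ?_
  unfold stirExp
  rw [← Finset.sum_sub_distrib, Finset.mul_sum]
  refine Finset.sum_congr rfl fun g _ => ?_
  show J c e / 2 * (stirLaw J s g * f ((swap c e) (g v)) - stirLaw J s g * f (g v)) =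
    stirLaw J s g * (J c e / 2 * (f ((swap c e) (g v)) - f (g v)))
  ring

theorem gen_le (hL : 3 ≤ L) (v : Fin d → ZMod L) (i : Fin d) (b : Fin d → ZMod L) :
    ∑ x, ((x i - v i).valMinAbs : ℝ) ^ 2 * GG (nnRate d L) x b ≤ 2 := by
  have h2 : ∀ x : Fin d → ZMod L, ((x i - v i).valMinAbs : ℝ) ^ 2 * GG (nnRate d L) x b =
      ((x i - v i).valMinAbs : ℝ) ^ 2 * nnRate d L x b -
        (if x = b then ((x i - v i).valMinAbs : ℝ) ^ 2 * (2 * d) else 0) := by
    intro x
    unfold GG
    by_cases hx : x = b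
    · subst hx
      rw [if_pos rfl, if_pos rfl, nn_row hL, nn_diag hL]
      ring
    · rw [if_neg hx, if_neg hx, sub_zero]
  rw [Finset.sum_congr rfl fun x _ => h2 x, Finset.sum_sub_distrib,
    nn_sum hL (fun x => ((x i - v i).valMinAbs : ℝ) ^ 2), Finset.sum_ite_eq',
    if_pos (Finset.mem_univ _)]
  have h3 : ((b i - v i).valMinAbs : ℝ) ^ 2 * (2 * (d : ℝ)) =
      ∑ _a : Fin d, 2 * ((b i - v i).valMinAbs : ℝ) ^ 2 := by
    rw [Finset.sum_const, Finset.card_univ, Fintype.card_fin, nsmul_eq_mul]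
    ring
  rw [h3, ← Finset.sum_sub_distrib]
  calc ∑ a : Fin d, (((Function.update b a (b a + 1) i - v i).valMinAbs : ℝ) ^ 2 +
        ((Function.update b a (b a - 1) i - v i).valMinAbs : ℝ) ^ 2 -
        2 * ((b i - v i).valMinAbs : ℝ) ^ 2)
      ≤ ∑ a : Fin d, (if a = i then (2 : ℝ) else 0) := by
        refine Finset.sum_le_sum fun a _ => ?_
        by_cases ha : a = i
        · subst ha
          rw [if_pos rfl, Function.update_self, Function.update_self]
          have h4 := sq_vma (b a - v a)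
          have e1 : b a + 1 - v a = b a - v a + 1 := by ring
          have e2 : b a - 1 - v a = b a - v a - 1 := by ring
          rw [e1, e2]
          exact h4
        · rw [if_neg ha, Function.update_of_ne (Ne.symm ha), Function.update_of_ne (Ne.symm ha)]
          linarith
    _ = 2 := by rw [Finset.sum_ite_eq', if_pos (Finset.mem_univ _)]

theorem second (hL : 3 ≤ L) {t : ℝ} (ht : 0 ≤ t) (v : Fin d → ZMod L) (i : Fin d) :
    stirExp (nnRate d L) t (fun g => (((g v) i - v i).valMinAbs : ℝ) ^ 2) ≤ 2 * t := by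
  have hder : ∀ s, HasDerivAt (fun u => stirExp (nnRate d L) u
      (fun g => (((g v) i - v i).valMinAbs : ℝ) ^ 2))
      (stirExp (nnRate d L) s (fun g => ∑ x, ((x i - v i).valMinAbs : ℝ) ^ 2 *
        GG (nnRate d L) x (g v))) s := fun s =>
    exp_deriv' (nnRate d L) s (fun y => ((y i - v i).valMinAbs : ℝ) ^ 2) v nn_symm (nn_diag hL)
  have hh : ∀ s, HasDerivAt (fun u => 2 * u - stirExp (nnRate d L) u
      (fun g => (((g v) i - v i).valMinAbs : ℝ) ^ 2))
      (2 * 1 - stirExp (nnRate d L) s (fun g => ∑ x, ((x i - v i).valMinAbs : ℝ) ^ 2 *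
        GG (nnRate d L) x (g v))) s := fun s =>
    ((hasDerivAt_id' s).const_mul 2).sub (hder s)
  have hmono := monotoneOn_of_deriv_nonneg (convex_Icc 0 t)
    (fun s _ => (hh s).continuousAt.continuousWithinAt)
    (fun s _ => (hh s).differentiableAt.differentiableWithinAt) (fun s hs => by
      rw [(hh s).deriv]
      have hs0 : 0 ≤ s := (interior_subset hs).1
      have h1 := exp_mono (J := nnRate d L) nn_nonneg hs0 (F := fun g => ∑ x,
        ((x i - v i).valMinAbs : ℝ) ^ 2 * GG (nnRate d L) x (g v)) (G := fun _ => 2)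
        fun g => gen_le hL v i (g v)
      rw [exp_const] at h1
      linarith)
  have h1 := hmono (Set.left_mem_Icc.2 ht) (Set.right_mem_Icc.2 ht) ht
  have h0 : stirExp (nnRate d L) 0 (fun g => (((g v) i - v i).valMinAbs : ℝ) ^ 2) = 0 := by
    unfold stirExp
    simp only [law_zero, ite_mul, one_mul, zero_mul]
    rw [Finset.sum_ite_eq', if_pos (Finset.mem_univ _)]
    simp
  simp only [h0] at h1
  linarith

theorem first (hL : 3 ≤ L) {t : ℝ} (ht : 0 < t) (v : Fin d → ZMod L) (i : Fin d) :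
    stirExp (nnRate d L) t (fun g => |(((g v) i - v i).valMinAbs : ℝ)|) ≤
      3 / 2 * Real.sqrt t := by
  have hst : 0 < Real.sqrt t := Real.sqrt_pos.2 ht
  have hsq : Real.sqrt t * Real.sqrt t = t := Real.mul_self_sqrt ht.le
  have h1 := exp_mono (J := nnRate d L) nn_nonneg ht.le
    (F := fun g => |(((g v) i - v i).valMinAbs : ℝ)|)
    (G := fun g => 1 / (2 * Real.sqrt t) * (((g v) i - v i).valMinAbs : ℝ) ^ 2 + Real.sqrt t / 2)
    (fun g => by
      set x := (((g v) i - v i).valMinAbs : ℝ)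
      have h2 : 0 ≤ (|x| - Real.sqrt t) ^ 2 := sq_nonneg _
      have h3 : |x| ^ 2 = x ^ 2 := sq_abs x
      have h4 : 2 * Real.sqrt t * |x| ≤ x ^ 2 + Real.sqrt t * Real.sqrt t := by nlinarith
      have h5 : 1 / (2 * Real.sqrt t) * x ^ 2 + Real.sqrt t / 2 =
          (x ^ 2 + Real.sqrt t * Real.sqrt t) / (2 * Real.sqrt t) := by
        field_simp
      show |x| ≤ 1 / (2 * Real.sqrt t) * x ^ 2 + Real.sqrt t / 2
      rw [h5, le_div_iff₀ (by positivity)]
      linarith)
  refine h1.trans ?_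
  have h2 : stirExp (nnRate d L) t (fun g => 1 / (2 * Real.sqrt t) *
      (((g v) i - v i).valMinAbs : ℝ) ^ 2 + Real.sqrt t / 2) =
      1 / (2 * Real.sqrt t) * stirExp (nnRate d L) t (fun g =>
        (((g v) i - v i).valMinAbs : ℝ) ^ 2) +
      stirExp (nnRate d L) t (fun _ => Real.sqrt t / 2) := by
    unfold stirExp
    rw [Finset.mul_sum, ← Finset.sum_add_distrib]
    exact Finset.sum_congr rfl fun g _ => by ring
  rw [h2, exp_const]
  have h3 := mul_le_mul_of_nonneg_left (second hL ht.le v i)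
    (by positivity : 0 ≤ 1 / (2 * Real.sqrt t))
  have h4 : 1 / (2 * Real.sqrt t) * (2 * t) = Real.sqrt t := by
    rw [div_mul_eq_mul_div, div_eq_iff (by positivity)]
    linear_combination (-2) * hsq
  linarith

end torus

theorem t_UP : S_UP := by
  intro d hd
  refine ⟨(d : ℝ) * (Real.log 3 + 3 / 2), ?_, ?_⟩
  · have : 0 ≤ Real.log 3 := Real.log_nonneg (by norm_num)
    positivity
  intro L _ hL t ht
  have ht0 : 0 < t := by linarith
  have hst : 0 < Real.sqrt t := Real.sqrt_pos.2 ht0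
  have hst1 : 1 ≤ Real.sqrt t := Real.one_le_sqrt.mpr ht
  obtain ⟨β, hβ⟩ : ∃ β : ℝ, β = 1 / Real.sqrt t := ⟨_, rfl⟩
  have hβ0 : 0 < β := by rw [hβ]; positivity
  have hZ := ZZ_pos (L := L) β
  have hZle : ZZ L β ≤ 3 * Real.sqrt t := by
    have h1 := ZZ_le (L := L) hβ0
    have h2 : 1 / β = Real.sqrt t := by rw [hβ]; field_simp
    rw [h2] at h1
    linarith
  have hlogZ : Real.log (ZZ L β) ≤ Real.log 3 + 1 / 2 * Real.log t := by
    refine (Real.log_le_log hZ hZle).trans (le_of_eq ?_)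
    rw [Real.log_mul (by norm_num) hst.ne', Real.log_sqrt ht0.le]
    ring
  have hmu0 : ∀ g, 0 ≤ stirLaw (nnRate d L) t g := fun g => law_nonneg nn_nonneg ht0.le g
  have hmu1 : ∑ g, stirLaw (nnRate d L) t g = 1 := by
    have h1 := exp_const (nnRate d L) t 1
    unfold stirExp at h1
    simpa using h1
  obtain ⟨r, hrdef⟩ : ∃ r : (Fin d → ZMod L) → (Fin d → ZMod L) → ℝ, r = fun v y =>
      ∏ i, (Real.exp (-(β * |((y i - v i).valMinAbs : ℝ)|)) / ZZ L β) := ⟨_, rfl⟩
  have hr : ∀ v y, 0 < r v y := by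
    intro v y
    rw [hrdef]
    exact Finset.prod_pos fun i _ => div_pos (Real.exp_pos _) hZ
  have hr1 : ∀ v, ∑ y, r v y = 1 := by
    intro v
    rw [hrdef]
    have h2 := Finset.prod_univ_sum (fun _ : Fin d => (univ : Finset (ZMod L)))
      (fun i z => Real.exp (-(β * |((z - v i).valMinAbs : ℝ)|)) / ZZ L β)
    rw [Fintype.piFinset_univ] at h2
    rw [← h2]
    refine Finset.prod_eq_one fun i _ => ?_
    rw [← Finset.sum_div]
    have h3 : ∑ z : ZMod L, Real.exp (-(β * |((z - v i).valMinAbs : ℝ)|)) = ZZ L β :=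
      Equiv.sum_comp (Equiv.subRight (v i))
        (fun z : ZMod L => Real.exp (-(β * |(z.valMinAbs : ℝ)|)))
    rw [h3, div_self hZ.ne']
  refine (gibbs _ hmu0 hmu1 r hr hr1).trans ?_
  have hone : ∀ v, ∑ g, stirLaw (nnRate d L) t g * (-Real.log (r v (g v))) ≤
      (d : ℝ) / 2 * Real.log t + d * (Real.log 3 + 3 / 2) := by
    intro v
    have h1 : ∀ g : Perm (Fin d → ZMod L), -Real.log (r v (g v)) =
        ∑ i, (β * |(((g v) i - v i).valMinAbs : ℝ)| + Real.log (ZZ L β)) := by
      intro g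
      rw [hrdef]
      simp only
      rw [Real.log_prod fun i _ => (div_pos (Real.exp_pos _) hZ).ne', ← Finset.sum_neg_distrib]
      refine Finset.sum_congr rfl fun i _ => ?_
      rw [Real.log_div (Real.exp_ne_zero _) hZ.ne', Real.log_exp]
      ring
    have h2 : ∑ g, stirLaw (nnRate d L) t g * (-Real.log (r v (g v))) =
        ∑ i, (β * stirExp (nnRate d L) t (fun g => |(((g v) i - v i).valMinAbs : ℝ)|) +
          Real.log (ZZ L β)) := by
      simp only [h1, Finset.mul_sum]
      rw [Finset.sum_comm]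
      refine Finset.sum_congr rfl fun i _ => ?_
      have h3 : Real.log (ZZ L β) = (∑ g, stirLaw (nnRate d L) t g) * Real.log (ZZ L β) := by
        rw [hmu1, one_mul]
      conv_rhs => rw [h3]
      unfold stirExp
      rw [Finset.mul_sum, Finset.sum_mul, ← Finset.sum_add_distrib]
      exact Finset.sum_congr rfl fun g _ => by ring
    rw [h2]
    calc ∑ i, (β * stirExp (nnRate d L) t (fun g => |(((g v) i - v i).valMinAbs : ℝ)|) +
          Real.log (ZZ L β))
        ≤ ∑ _i : Fin d, (3 / 2 + (Real.log 3 + 1 / 2 * Real.log t)) := by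
          refine Finset.sum_le_sum fun i _ => add_le_add ?_ hlogZ
          have h3 := mul_le_mul_of_nonneg_left (first hL ht0 v i) hβ0.le
          have h4 : β * (3 / 2 * Real.sqrt t) = 3 / 2 := by rw [hβ]; field_simp
          linarith
      _ = _ := by
          rw [Finset.sum_const, Finset.card_univ, Fintype.card_fin, nsmul_eq_mul]
          ring
  calc ∑ v, ∑ g, stirLaw (nnRate d L) t g * (-Real.log (r v (g v)))
      ≤ ∑ _v : Fin d → ZMod L, ((d : ℝ) / 2 * Real.log t + d * (Real.log 3 + 3 / 2)) :=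
        Finset.sum_le_sum fun v _ => hone v
    _ = _ := by
        rw [Finset.sum_const, Finset.card_univ, nsmul_eq_mul, Fintype.card_fun, Fintype.card_fin,
          ZMod.card]
        push_cast
        ring

end Pool.Agent.Y415.LP
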